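import Pool.Agent.Helper41.GM.Nbp
import Pool.Agent.Helper41.GM.Guess

/-!
# Nondeterministic read-once branching programs for the gap problem of `d`-to-1 games

The input is a `d`-to-1 game on the complete bipartite graph with `n + n` vertices: for every edge `(v, w)` a map
from the right labels `Fin (d * q)` to the left labels `Fin q` with at most `d` preimages for every label.  A
nondeterministic branching program is a graph with a start and an accepting node whose edges are free or are
labelled by a test `x e = π`; it accepts `x` if there is a walk from the start to the accepting node all of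
whose tests are passed.  It is read-once if no such walk tests an edge of the game twice; the order of the tests may
be different on different walks.

Theorem: if such a program accepts all games of value one and rejects all games of value at most `1 / g`, then its
number `S` of nodes satisfies `q ^ n ≤ S ^ (2 ^ 25 * g ^ 8)`, for all `q ≥ 2 ^ 38 g ^ 12` and `n ≥ 2 ^ 20 g ^ 6`.  On the
other hand `2 + q ^ n (d q) ^ n (n ^ 2 + 1)` nodes suffice to decide whether the value is one.  So for fixed `g`, `d`
the logarithm of the size is of the order `n log q`.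

Idea: take a code of labelings that are far from each other even when they are shifted, and for each of them a
linear game that it satisfies.  A labeling can satisfy only few edges of a mixture of many such games (a counting
argument with the sets where it agrees with a shift of one of the code words).  On the other hand, cut the accepting
walks into `32 g ^ 2` segments; many of them share the cut nodes, and then mixtures are accepted.
-/

set_option autoImplicit false

open Finset

namespace Pool.Agent.Results.MP_62e2f2_lc.ReadOnceBranchingPrograms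

open Pool.Agent.Helper41.PM Pool.Agent.Helper41.GM

/-- The `d`-to-1 maps from the right labels to the left labels: every left label has at most `d` preimages. -/
def DMap (d q : ℕ) : Type :=
  {π : Fin (d * q) → Fin q // ∀ a, (univ.filter (fun j => π j = a)).card ≤ d}

/-- A `d`-to-1 game on the complete bipartite graph with `n + n` vertices. -/
abbrev Game (d q n : ℕ) : Type := Fin n × Fin n → DMap d q

/-- The number of edges satisfied by the labeling `A`, `b`. -/
def satisfied {d q n : ℕ} (x : Game d q n) (A : Fin n → Fin q) (b : Fin n → Fin (d * q)) : ℕ :=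
  (univ.filter (fun e : Fin n × Fin n => (x e).1 (b e.2) = A e.1)).card

/-- The value is one: some labeling satisfies all edges. -/
def ValueOne {d q n : ℕ} (x : Game d q n) : Prop :=
  ∃ (A : Fin n → Fin q) (b : Fin n → Fin (d * q)), ∀ e : Fin n × Fin n, (x e).1 (b e.2) = A e.1

/-- The value is at most `1 / g`. -/
def ValueLe {d q n : ℕ} (g : ℕ) (x : Game d q n) : Prop :=
  ∀ A b, g * satisfied x A b ≤ n ^ 2

/-- Reduction of the right labels modulo `q`. -/
def red {d q : ℕ} [NeZero q] (j : Fin (d * q)) : Fin q := ⟨j.val % q, Nat.mod_lt _ (NeZero.pos q)⟩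

theorem red_fibre {d q : ℕ} [NeZero q] (a : Fin q) :
    (univ.filter (fun j : Fin (d * q) => red j = a)).card ≤ d := by
  have hq : 0 < q := NeZero.pos q
  have h1 : (univ.filter (fun j : Fin (d * q) => red j = a)).card ≤ (range d).card := by
    refine card_le_card_of_injOn (fun j => j.val / q) ?_ ?_
    · intro j _
      rw [mem_coe, mem_range]
      show j.val / q < d
      rw [Nat.div_lt_iff_lt_mul hq]
      exact j.2
    · intro j hj j' hj' h
      rw [mem_coe, mem_filter] at hj hj'
      have h2 : j.val % q = j'.val % q := by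
        have := hj.2.trans hj'.2.symm
        exact congrArg Fin.val this
      have h3 : j.val / q = j'.val / q := h
      apply Fin.ext
      rw [← Nat.div_add_mod j.val q, ← Nat.div_add_mod j'.val q, h2, h3]
  rwa [card_range] at h1

/-- The map `j ↦ (j mod q) + u`. -/
def lin {d q : ℕ} [NeZero q] (u : Fin q) : DMap d q :=
  ⟨fun j => red j + u, fun a => by
    have h1 : univ.filter (fun j : Fin (d * q) => red j + u = a) =
        univ.filter (fun j : Fin (d * q) => red j = a - u) := by
      ext j
      simp only [mem_filter, mem_univ, true_and]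
      exact eq_sub_iff_add_eq.symm
    rw [h1]
    exact red_fibre _⟩

/-- The linear game with the planted labeling `f`. -/
def planted {d q n : ℕ} [NeZero q] (f : Fin n → Fin q) : Game d q n := fun e =>
  lin (f e.1 - f e.2)

theorem planted_value {d q n : ℕ} [NeZero q] (hd : 1 ≤ d) (f : Fin n → Fin q) :
    ValueOne (planted (d := d) f) := by
  have hlt : ∀ a : Fin q, a.val < d * q := fun a => a.2.trans_le (Nat.le_mul_of_pos_left _ hd)
  refine ⟨f, fun w => ⟨(f w).val, hlt _⟩, fun e => ?_⟩
  show red (⟨(f e.2).val, hlt _⟩ : Fin (d * q)) + (f e.1 - f e.2) = f e.1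
  have h1 : red (⟨(f e.2).val, hlt _⟩ : Fin (d * q)) = f e.2 := by
    apply Fin.ext
    exact Nat.mod_eq_of_lt (f e.2).2
  rw [h1]
  abel

/-- The lower bound. -/
theorem lower {d g q n : ℕ} (hd : 1 ≤ d) (hg : 1 ≤ g) (hq : 2 ^ 38 * g ^ 12 ≤ q)
    (hn : 2 ^ 20 * g ^ 6 ≤ n) {V : Type} [Fintype V] (B : NBP (Fin n × Fin n) (DMap d q) V)
    (hB : B.ReadOnce) (h1 : ∀ x, ValueOne x → B.Accepts x)
    (h2 : ∀ x, ValueLe g x → ¬ B.Accepts x) :
    q ^ n ≤ Fintype.card V ^ (2 ^ 25 * g ^ 8) := by
  classical
  have hg6 : 1 ≤ g ^ 6 := Nat.one_le_pow _ _ hg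
  have hg12 : 1 ≤ g ^ 12 := Nat.one_le_pow _ _ hg
  have hq1 : 0 < q := by omega
  have hNZ : NeZero q := ⟨hq1.ne'⟩
  -- parameters
  set T : ℕ := 256 * g ^ 3 with hT
  set K : ℕ := 131072 * g ^ 6 with hK
  have hTK : 2 * T ^ 2 = K := by rw [hT, hK]; ring
  set D : ℕ := n / K with hD
  have hK0 : 0 < K := by rw [hK]; positivity
  have hDK : K * D ≤ n := Nat.mul_div_le n K
  have hDK' : n ≤ K * (D + 1) := (Nat.lt_mul_div_succ n hK0).le
  have hDn : D + 1 ≤ n := by
    have : 2 * D ≤ K * D := Nat.mul_le_mul_right _ (by omega)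
    omega
  obtain ⟨C, hC, hCc⟩ := exists_far_code (V := Fin n) (G := Fin q) D (by
    rw [Fintype.card_fin]; exact hDn)
  rw [Fintype.card_fin, Fintype.card_fin] at hCc
  -- the size of the code
  have hchoose : n.choose (D + 1) ≤ (3 * K) ^ (D + 1) := choose_le_pow_of_le (Nat.le_add_left 1 D) hDK'
  have hM1 : q ^ (D + 1) ≤ C.card * q * (3 * K) ^ (D + 1) := by
    have h3 : q ^ (n - (D + 1)) * q ^ (D + 1) ≤
        q ^ (n - (D + 1)) * (C.card * q * (3 * K) ^ (D + 1)) := by
      calc q ^ (n - (D + 1)) * q ^ (D + 1) = q ^ n := by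
            rw [← pow_add]
            congr 1
            omega
        _ ≤ C.card * (q * (n.choose (D + 1) * q ^ (n - (D + 1)))) := hCc
        _ ≤ C.card * (q * ((3 * K) ^ (D + 1) * q ^ (n - (D + 1)))) := by gcongr
        _ = _ := by ring
    exact Nat.le_of_mul_le_mul_left h3 (by positivity)
  have h3K : (3 * K) ^ 2 ≤ q := by
    refine le_trans ?_ hq
    rw [hK]
    calc (3 * (131072 * g ^ 6)) ^ 2 = 154618822656 * g ^ 12 := by ring
      _ ≤ 2 ^ 38 * g ^ 12 := Nat.mul_le_mul_right _ (by norm_num)
  have hM2 : q ^ (D + 1) ≤ C.card ^ 2 * q ^ 2 := by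
    have h3 : q ^ (D + 1) * q ^ (D + 1) ≤ q ^ (D + 1) * (C.card ^ 2 * q ^ 2) := by
      calc q ^ (D + 1) * q ^ (D + 1) ≤ (C.card * q * (3 * K) ^ (D + 1)) *
            (C.card * q * (3 * K) ^ (D + 1)) := Nat.mul_le_mul hM1 hM1
        _ = ((3 * K) ^ 2) ^ (D + 1) * (C.card ^ 2 * q ^ 2) := by
            rw [← pow_mul, mul_comm 2 (D + 1), pow_mul]
            ring
        _ ≤ _ := Nat.mul_le_mul_right _ (Nat.pow_le_pow_left h3K _)
    exact Nat.le_of_mul_le_mul_left h3 (by positivity)
  -- the program
  set t : ℕ := 32 * g ^ 2 - 1 with ht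
  have hg2 : 1 ≤ g ^ 2 := Nat.one_le_pow _ _ hg
  have ht1 : t + 1 = 32 * g ^ 2 := by omega
  set y : ℕ := n / (4 * g) with hy
  have hy1 : 4 * g * y ≤ n := Nat.mul_div_le n (4 * g)
  have hy2 : n < 4 * g * (y + 1) := Nat.lt_mul_div_succ n (by omega)
  have hgn : 1048576 * g ≤ n := by
    have : g ≤ g ^ 6 := Nat.le_self_pow (by norm_num) g
    omega
  have hy3 : 3 * n ≤ 16 * (g * y) := by
    have e1 : 4 * g * (y + 1) = 4 * (g * y) + 4 * g := by ring
    omega
  have hy0 : 1 ≤ y := by
    by_contra h
    have : y = 0 := Nat.eq_zero_of_not_pos h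
    rw [this] at hy3
    omega
  have hX : Fintype.card (Fin n × Fin n) ≤ (t + 1) * y ^ 2 := by
    rw [Fintype.card_prod, Fintype.card_fin, ht1]
    have h3 : (3 * n) ^ 2 ≤ (16 * (g * y)) ^ 2 := Nat.pow_le_pow_left hy3 2
    have e1 : (16 * (g * y)) ^ 2 = 8 * (32 * g ^ 2 * y ^ 2) := by ring
    have e2 : (3 * n) ^ 2 = 9 * (n * n) := by ring
    omega
  have hcard : ¬ Fintype.card V ^ (t + 2) * (2 * (t + 1)) < Fintype.card {f // f ∈ C} := by
    intro hlt
    obtain ⟨p, a, ha, hp, hacc⟩ := exists_mixture hB t (y ^ 2) (Nat.one_le_pow _ _ hy0) hX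
      (fun f : {f // f ∈ C} => planted (d := d) f.1) (fun f => h1 _ (planted_value hd f.1)) hlt
    refine h2 _ (fun A b => ?_) hacc
    -- the value of the mixture
    have hsat : satisfied (fun e => planted (d := d) (a (p e)).1 e) A b =
        (sat (fun i => (a i).1) p A (fun w => red (b w))).card := by
      unfold satisfied sat
      congr 1
      ext e
      simp only [mem_filter, mem_univ, true_and]
      show red (b e.2) + ((a (p e)).1 e.1 - (a (p e)).1 e.2) = A e.1 ↔ _
      constructor
      · intro h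
        rw [← h]
        abel
      · intro h
        have h3 : A e.1 = (A e.1 - (a (p e)).1 e.1) + (a (p e)).1 e.1 := by abel
        rw [h3, h]
        abel
    have hmain := card_sat (fun i => (a i).1) p A (fun w => red (b w)) (y := y) (T := T) (D := D)
      (by rw [hT]; have := Nat.one_le_pow 3 _ hg; omega)
      (fun i j hij c => hC _ (a i).2 _ (a j).2 (fun h => hij (ha (Subtype.ext h))) c)
      (by rw [hTK, Fintype.card_fin]; exact hDK) hp
    rw [← hsat, Fintype.card_fin, Fintype.card_fin] at hmain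
    set s := satisfied (fun e => planted (d := d) (a (p e)).1 e) A b with hs
    have e3 : 2 * (t + 1) = 64 * g ^ 2 := by omega
    rw [e3] at hmain
    have hT0 : 0 < T := by rw [hT]; positivity
    have h3 : T * (g * s) ≤ T * n ^ 2 := by
      calc T * (g * s) = g * (T * s) := by ring
        _ ≤ g * (T * (2 * n * y) + 64 * g ^ 2 * (2 * n ^ 2)) := Nat.mul_le_mul_left _ hmain
        _ = T * n * (2 * (g * y)) + 128 * g ^ 3 * n ^ 2 := by ring
        _ ≤ T * n ^ 2 := by
            have e4 : 4 * (g * y) ≤ n := by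
              have : 4 * g * y = 4 * (g * y) := by ring
              omega
            have e5 : T * n * (4 * (g * y)) ≤ T * n * n := Nat.mul_le_mul_left _ e4
            have e6 : T * n * (4 * (g * y)) = 2 * (T * n * (2 * (g * y))) := by ring
            have e7 : 2 * (128 * g ^ 3 * n ^ 2) = T * n ^ 2 := by rw [hT]; ring
            have e8 : T * n * n = T * n ^ 2 := by ring
            omega
    exact Nat.le_of_mul_le_mul_left h3 hT0
  rw [not_lt, Fintype.card_coe] at hcard
  -- the final computation
  set S := Fintype.card V with hS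
  have hS1 : 1 ≤ S := Fintype.card_pos_iff.2 ⟨B.src⟩
  have e1 : 2 * (t + 1) = 64 * g ^ 2 := by omega
  have e2 : t + 2 = 32 * g ^ 2 + 1 := by omega
  rw [e1, e2] at hcard
  have h4 : q ^ (D + 1) ≤ S ^ (66 * g ^ 2) * q ^ 3 := by
    calc q ^ (D + 1) ≤ C.card ^ 2 * q ^ 2 := hM2
      _ ≤ (S ^ (32 * g ^ 2 + 1) * (64 * g ^ 2)) ^ 2 * q ^ 2 :=
          Nat.mul_le_mul_right _ (Nat.pow_le_pow_left hcard 2)
      _ = S ^ (2 * (32 * g ^ 2 + 1)) * (4096 * g ^ 4) * q ^ 2 := by
          rw [mul_pow, ← pow_mul, mul_comm (32 * g ^ 2 + 1) 2]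
          ring
      _ ≤ S ^ (66 * g ^ 2) * q * q ^ 2 := by
          have h5 : 4096 * g ^ 4 ≤ q := by
            refine le_trans (Nat.mul_le_mul (by norm_num) (Nat.pow_le_pow_right hg (by norm_num))) hq
          have h6 : S ^ (2 * (32 * g ^ 2 + 1)) ≤ S ^ (66 * g ^ 2) :=
            Nat.pow_le_pow_right hS1 (by omega)
          gcongr
      _ = _ := by ring
  have hD3 : 3 ≤ D + 1 := by
    have : 8 * K ≤ n := by rw [hK]; omega
    have : 8 ≤ D := by
      rw [hD, Nat.le_div_iff_mul_le hK0]
      exact this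
    omega
  have h5 : q ^ (D - 2) ≤ S ^ (66 * g ^ 2) := by
    have h6 : q ^ 3 * q ^ (D - 2) ≤ q ^ 3 * S ^ (66 * g ^ 2) := by
      calc q ^ 3 * q ^ (D - 2) = q ^ (D + 1) := by
            rw [← pow_add]
            congr 1
            omega
        _ ≤ _ := h4
        _ = _ := by ring
    exact Nat.le_of_mul_le_mul_left h6 (by positivity)
  have h6 : n ≤ (D - 2) * (2 * K) := by
    have h7 : 8 * K ≤ n := by rw [hK]; omega
    have h8 : (D - 2) * (2 * K) = 2 * (K * (D + 1)) - 6 * K := by
      obtain ⟨D', hD'⟩ : ∃ D', D = D' + 2 := ⟨D - 2, by omega⟩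
      rw [hD']
      have : 2 * (K * (D' + 2 + 1)) = (D' + 2 - 2) * (2 * K) + 6 * K := by
        rw [Nat.add_sub_cancel]
        ring
      omega
    omega
  calc q ^ n ≤ q ^ ((D - 2) * (2 * K)) := Nat.pow_le_pow_right hq1 h6
    _ = (q ^ (D - 2)) ^ (2 * K) := pow_mul _ _ _
    _ ≤ (S ^ (66 * g ^ 2)) ^ (2 * K) := Nat.pow_le_pow_left h5 _
    _ = S ^ (66 * g ^ 2 * (2 * K)) := (pow_mul _ _ _).symm
    _ ≤ S ^ (2 ^ 25 * g ^ 8) := by
        refine Nat.pow_le_pow_right hS1 ?_
        rw [hK]
        calc 66 * g ^ 2 * (2 * (131072 * g ^ 6)) = 17301504 * g ^ 8 := by ring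
          _ ≤ 2 ^ 25 * g ^ 8 := Nat.mul_le_mul_right _ (by norm_num)

/-- **Nondeterministic read-once branching programs for `d`-to-1 games.**

1. Lower bound.  Let `d, g ≥ 1`, `q ≥ 2 ^ 38 g ^ 12` and `n ≥ 2 ^ 20 g ^ 6`.  Every nondeterministic read-once branching
   program with `S` nodes that accepts all `d`-to-1 games of value one (`n + n` vertices, `q` left and `d q` right
   labels) and rejects all those of value at most `1 / g` satisfies `q ^ n ≤ S ^ (2 ^ 25 g ^ 8)`.
2. Upper bound.  Some nondeterministic read-once branching program with `2 + q ^ n (d q) ^ n (n ^ 2 + 1)` nodes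
   accepts exactly the games of value one. -/
theorem result :
    (∀ d g q n : ℕ, 1 ≤ d → 1 ≤ g → 2 ^ 38 * g ^ 12 ≤ q → 2 ^ 20 * g ^ 6 ≤ n →
      ∀ (V : Type) [Fintype V] (B : NBP (Fin n × Fin n) (DMap d q) V), B.ReadOnce →
      (∀ x : Game d q n, ValueOne x → B.Accepts x) →
      (∀ x : Game d q n, ValueLe g x → ¬ B.Accepts x) →
      q ^ n ≤ Fintype.card V ^ (2 ^ 25 * g ^ 8)) ∧
    (∀ d q n : ℕ, ∃ (V : Type) (_ : Fintype V) (B : NBP (Fin n × Fin n) (DMap d q) V),
      B.ReadOnce ∧ (∀ x : Game d q n, B.Accepts x ↔ ValueOne x) ∧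
      Fintype.card V = 2 + q ^ n * (d * q) ^ n * (n ^ 2 + 1)) := by
  refine ⟨fun d g q n hd hg hq hn V _ B hB h1 h2 => lower hd hg hq hn B hB h1 h2, fun d q n => ?_⟩
  classical
  obtain ⟨V, i, B, h1, h2, h3⟩ := exists_guess (X := Fin n × Fin n) (Al := DMap d q)
    (G := (Fin n → Fin q) × (Fin n → Fin (d * q))) (fun ℓ e π => π.1 (ℓ.2 e.2) = ℓ.1 e.1)
  refine ⟨V, i, B, h1, fun x => ?_, ?_⟩
  · rw [h2]
    constructor
    · rintro ⟨⟨A, b⟩, h⟩
      exact ⟨A, b, h⟩
    · rintro ⟨A, b, h⟩
      exact ⟨(A, b), h⟩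
  · rw [h3, Fintype.card_prod, Fintype.card_fun, Fintype.card_fun, Fintype.card_fin, Fintype.card_fin,
      Fintype.card_fin, Fintype.card_prod, Fintype.card_fin]
    ring

end Pool.Agent.Results.MP_62e2f2_lc.ReadOnceBranchingPrograms
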