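import Pool.Agent.Helper72.BX.Main

/-!
# Resolution needs exponential size to refute d-to-1 games of small value

The definitions used in the statement are in `Pool/Agent/Helper72/BX/Defs.lean`: `Refutation`
(lines are sets of labellings, each line violates an edge or is covered by at most `k` earlier
lines), `IsBox`, `Narrow` and `NearBox`.

Resolution is a special case, with lines that are boxes and `k = 2`: if a clause is made of literals
which say something about the label of one vertex each (for instance, that the label is `a`, that it
is not `a`, or a bit of its code), then the labellings that falsify the clause form a box. So backtracking
and clause-learning algorithms are covered. The lines may also contain a part which depends on few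
vertices (at most `γ n / k`) in an arbitrary way, so consistency algorithms, which keep constraints
on few vertices, are covered as well: they find nothing.

For `d = 1` such games have refutations of polynomial size by the propagation of labels.

Proof. As in the starting result `MonotoneCircuits`, right labels are pairs `(x, j)` with `x` in
`ℤ/p` and `j < d`, and the constraint of the `i`-th edge of a right vertex is
`label v = x - i j + shift`. A sparse random graph with random shifts gives a small value. Here the
graphs are such that sets of linear size are sparse (`BX/Graph.lean`), so there are locally consistent
labellings for the sets of linearly many vertices. The lower bound (`BX/Box.lean`) is an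
adversary argument: either the label that kills most wide boxes is consistent with the choices made
so far and is chosen, or it can be forbidden forever.
-/

set_option autoImplicit false

namespace Pool.Agent.Results.MP_62e2f2_lc.ResolutionLowerBound

open Finset Pool.Agent.Helper72.BX

/-- For all `d ≥ 2` and `ε > 0` there are `R`, `Δ` and `γ > 0` such that for all large `n` there is a
game with `n` left and `n` right vertices, `R` left and `d R` right labels, at least `n / 2` and at
most `Δ n` edges and projections with fibres of `d` elements such that every labelling satisfies less
than a fraction `ε` of the edges, but for all `1 ≤ k ≤ γ n` every refutation with fan-in `k` of the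
claim that some labelling satisfies all edges, each line of which is the intersection of a box and of
a set that depends on at most `γ n / k` vertices, has at least `exp (γ n / k)` lines that do not
depend on at most `γ n / k` vertices. -/
theorem result (d : ℕ) (hd : 2 ≤ d) (ε : ℝ) (hε : 0 < ε) :
    ∃ (R Δ : ℕ) (γ : ℝ) (n0 : ℕ), 1 ≤ R ∧ 0 < γ ∧ ∀ n : ℕ, n0 ≤ n →
      ∃ (E : Type) (_ : Fintype E) (v w : E → Fin n) (π : E → Fin (d * R) → Fin R),
        n ≤ 2 * Fintype.card E ∧ Fintype.card E ≤ Δ * n ∧
        (∀ e b, (univ.filter fun a => π e a = b).card = d) ∧
        (∀ (L : Fin n → Fin R) (M : Fin n → Fin (d * R)),
          ((univ.filter fun e => π e (M (w e)) = L (v e)).card : ℝ) < ε * Fintype.card E) ∧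
        ∀ (k s : ℕ), 1 ≤ k → k ≤ γ * n → ∀ X : Refutation v w π k s,
          (∀ i, NearBox (γ * n / k) (X.X i)) →
            Real.exp (γ * n / k) ≤ Nat.card {i // ¬ Narrow (γ * n / k) (X.X i)} :=
  main d hd ε hε

end Pool.Agent.Results.MP_62e2f2_lc.ResolutionLowerBound
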