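import Pool.Agent.Helper72.SA.OneG

/-!
# Sherali-Adams linear programs for d-to-1 games on graphs with small-set expansion

A two-sided game: the vertices in `W` get labels in `A`, the vertices in `V` labels in `B`, the edge
`e` joins `v e` and `w e` and pays `f e a b`, a number between 0 and 1, for the labels `a` of `w e`
and `b` of `v e`. The payoffs have row sums at most `d₁` and column sums at most `d₂`. In a
`d`-to-1 game `f e a b` is 1 if `π e a = b` and 0 otherwise, so `d₁ = 1` and `d₂ = d`. There is no
bound for the numbers of labels.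

We bound the level at which the linear program of the Sherali-Adams hierarchy (no semidefinite
constraint) approximates the value up to the additive error `δ`, in terms of the random walk on the
constraint graph. Let `R = 8 √(d₁ d₂) / δ ^ 2` and let `n` be the number of vertices.

* If the graph has small-set expansion at all scales (of every set `S` of vertices at most a
  fraction `a μ(S) ^ κ` of the edges at `S` stays in `S`, where `μ(S)` is the fraction of the
  volume), then the level `C (log n) ^ (8 / κ * log R)` suffices, with `C` depending on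
  `a, κ, δ` and `d₁ d₂` only.
* If small sets have expansion close to 1 at one scale (of every set of at most a fraction `μ` of
  the volume at most a fraction `η` of the edges stays in it), then the level
  `34 R ^ 6 n ^ (2 log R / log (1 / (2 η))) / (μ δ)` suffices.
* For all graphs the level `2 N R ^ (2 T + 4) / δ` suffices, where `N` is the trace of the power
  `2 T` of the transition matrix, for any `T`.

In particular (`c = 1`) these linear programs tell satisfiable `d`-to-1 games from those of value
less than `1 - δ`.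

Idea of the proof. If independent labels are worse by `δ` than the labels of the solution, then the
kernel of the solution (the sum of the normalised squares of the covariances of the labels of two
vertices) is at least `r = δ ^ 2 / (4 √(d₁ d₂))` on average over the edges. Sherali-Adams makes
this kernel positive semidefinite on any few vertices; applied to independent samples of the random
walk on the constraint graph this gives a lower bound `(r / 2) ^ (T + 1)` for the autocorrelation
of the kernel along the walk at a time of at least `T`, and by the Cauchy-Schwarz inequality the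
average of its square over all pairs of vertices is at least `(r / 2) ^ (2 T + 2) / N`. So
conditioning on the label of some vertex decreases the variances by that much. Small-set expansion
at all scales gives a Nash inequality, and it makes `N` bounded at a time `T` of the order
`log log n`. Expansion close to 1 at one scale makes the densities of the walk decrease by the
factor `2 η` in every step, until they are spread over a fraction `μ` of the volume.
-/

namespace Pool.Agent.Results.MP_62e2f2_lc.SheraliAdamsExpandingGames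

open Finset

/-- `f` depends only on the labels of the vertices in `S ⊆ W` and in `T ⊆ V`. -/
def DependsOn {V W A B : Type} (S : Finset W) (T : Finset V) (f : (W → A) × (V → B) → ℝ) : Prop :=
  ∀ z z' : (W → A) × (V → B), (∀ w ∈ S, z.1 w = z'.1 w) → (∀ v ∈ T, z.2 v = z'.2 v) → f z = f z'

/-- `L` is a solution of the Sherali-Adams linear program of level `D`: a normalised linear
functional on the functions of a labeling which is nonnegative on all nonnegative functions of at
most `D` labels. Only the values of `L` on functions of at most `D` labels matter: they are the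
expectations for a family of probability distributions on the labelings of the sets of at most `D`
vertices which are consistent on intersections. -/
structure IsSheraliAdams {V W A B : Type} (D : ℕ) (L : ((W → A) × (V → B) → ℝ) →ₗ[ℝ] ℝ) :
    Prop where
  one : L (fun _ => 1) = 1
  nonneg : ∀ (S : Finset W) (T : Finset V), S.card + T.card ≤ D →
    ∀ f : (W → A) × (V → B) → ℝ, DependsOn S T f → (∀ z, 0 ≤ f z) → 0 ≤ L f

/-- The volume of the set `S ∪ S'` of vertices, `S ⊆ V`, `S' ⊆ W`: the sum of their degrees. -/
def vol {V W E : Type} [DecidableEq V] [DecidableEq W] [Fintype E] (v : E → V) (w : E → W)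
    (S : Finset V) (S' : Finset W) : ℝ :=
  ((univ.filter fun e => v e ∈ S).card : ℝ) + ((univ.filter fun e => w e ∈ S').card : ℝ)

/-- The degree of a vertex of the graph with the edges `(s e, t e)`. -/
def deg {Z E : Type} [DecidableEq Z] [Fintype E] (s t : E → Z) (u : Z) : ℝ :=
  ((univ.filter fun e => s e = u).card : ℝ) + ((univ.filter fun e => t e = u).card : ℝ)

/-- The probability that the random walk on the graph with the edges `(s e, t e)` which starts in
`u` is in `u'` after `k` steps. (It is `0` for `k ≥ 1` if `u` is an isolated vertex.) -/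
noncomputable def walk {Z E : Type} [DecidableEq Z] [Fintype E] (s t : E → Z) : ℕ → Z → Z → ℝ
  | 0, u, u' => if u = u' then 1 else 0
  | k + 1, u, u' => (∑ e, ((if s e = u then walk s t k (t e) u' else 0) +
      (if t e = u then walk s t k (s e) u' else 0))) / deg s t u

theorem walk_eq {Z E : Type} [Fintype Z] [DecidableEq Z] [Fintype E] (s t : E → Z) (k : ℕ)
    (u u' : Z) : walk s t k u u' =
      Pool.Agent.Helper72.SA.wk (Pool.Agent.H647R3.UG.wt s t) k u u' := by
  induction k generalizing u with
  | zero => rfl
  | succ k ih =>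
    unfold walk Pool.Agent.Helper72.SA.wk
    simp only [ih]
    rw [Pool.Agent.Helper72.SA.wt_sum]
    congr 1
    obtain ⟨-, -, hwd, -⟩ := Pool.Agent.H647R3.UG.T_WT Z E s t
    rw [hwd]
    rfl

/-- Consider a game with the two sets of vertices `V` (labels `B`) and `W` (labels `A`), together
`n ≥ 3` vertices, edges `(v e, w e)`, and payoffs `f e a b` between 0 and 1 with
`∑ b, f e a b ≤ d₁` and `∑ a, f e a b ≤ d₂`. Let `0 < δ ≤ 1` and `R = 8 √(d₁ d₂) / δ ^ 2`, and let
the Sherali-Adams linear program of level `D` have a solution of value at least `c`. Then some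
labeling has value at least `c - δ` in each of the following cases.

(1) `D ≥ 6 (98 a ^ (1 / 4) / κ ^ 2) ^ (4 / κ) R ^ 6 (log n) ^ ((8 / κ) log R) / δ` for some `a ≥ 1`
and `0 < κ ≤ 1` such that `2 |E(S, S')| ≤ a (vol(S, S') / (2 |E|)) ^ κ vol(S, S')` for all `S ⊆ V`
and `S' ⊆ W`.

(2) `D ≥ 34 R ^ 6 n ^ (2 log R / log (1 / (2 η))) / (μ δ)` for some `0 < η ≤ 1 / 4` and `0 < μ ≤ 1`
such that `2 |E(S, S')| ≤ η vol(S, S')` for all `S ⊆ V` and `S' ⊆ W` with
`vol(S, S') ≤ μ (2 |E|)`.

(3) `D ≥ 2 N R ^ (2 T + 4) / δ` for some `T ≥ 0` and some `N ≥ 1` which is at least the sum over all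
vertices of the probability that the random walk on the constraint graph is back after `2 T`
steps. -/
theorem result (V W A B E : Type) [Fintype V] [DecidableEq V] [Fintype W] [DecidableEq W]
    [Fintype A] [Fintype B] [Fintype E] (v : E → V) (w : E → W) (f : E → A → B → ℝ)
    (d₁ d₂ c δ : ℝ) (D : ℕ) (L : ((W → A) × (V → B) → ℝ) →ₗ[ℝ] ℝ)
    (hf : ∀ e a b, 0 ≤ f e a b ∧ f e a b ≤ 1) (h₁ : ∀ e a, ∑ b, f e a b ≤ d₁)
    (h₂ : ∀ e b, ∑ a, f e a b ≤ d₂) (hd₁ : 1 ≤ d₁) (hd₂ : 1 ≤ d₂) (hδ : 0 < δ) (hδ1 : δ ≤ 1)
    (hn : 3 ≤ Fintype.card V + Fintype.card W)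
    (hL : IsSheraliAdams D L)
    (hval : c * (Fintype.card E : ℝ) ≤ ∑ e, L (fun z => f e (z.1 (w e)) (z.2 (v e))))
    (hD : (∃ a κ : ℝ, 1 ≤ a ∧ 0 < κ ∧ κ ≤ 1 ∧
        (∀ (S : Finset V) (S' : Finset W),
          2 * ((univ.filter fun e => v e ∈ S ∧ w e ∈ S').card : ℝ) ≤
            a * (vol v w S S' / (2 * Fintype.card E)) ^ κ * vol v w S S') ∧
        6 * (98 * a ^ (1 / 4 : ℝ) / κ ^ 2) ^ (4 / κ) *
          (8 * Real.sqrt (d₁ * d₂) / δ ^ 2) ^ 6 *
          Real.log ((Fintype.card V : ℝ) + Fintype.card W) ^
            (8 / κ * Real.log (8 * Real.sqrt (d₁ * d₂) / δ ^ 2)) / δ ≤ D) ∨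
      (∃ η μ : ℝ, 0 < η ∧ η ≤ 1 / 4 ∧ 0 < μ ∧ μ ≤ 1 ∧
        (∀ (S : Finset V) (S' : Finset W), vol v w S S' ≤ μ * (2 * Fintype.card E) →
          2 * ((univ.filter fun e => v e ∈ S ∧ w e ∈ S').card : ℝ) ≤ η * vol v w S S') ∧
        34 * (8 * Real.sqrt (d₁ * d₂) / δ ^ 2) ^ 6 *
          ((Fintype.card V : ℝ) + Fintype.card W) ^
            (2 * Real.log (8 * Real.sqrt (d₁ * d₂) / δ ^ 2) / Real.log (1 / (2 * η))) /
          (μ * δ) ≤ D) ∨
      ∃ (T : ℕ) (N : ℝ), 1 ≤ N ∧
        ∑ u, walk (fun e => (Sum.inl (w e) : W ⊕ V)) (fun e => (Sum.inr (v e) : W ⊕ V))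
          (2 * T) u u ≤ N ∧
        2 * N * (8 * Real.sqrt (d₁ * d₂) / δ ^ 2) ^ (2 * T + 4) / δ ≤ D) :
    ∃ (x : W → A) (y : V → B), (c - δ) * (Fintype.card E : ℝ) ≤
      ∑ e, f e (x (w e)) (y (v e)) := by
  rcases hD with ⟨a, κ, ha, hκ, hκ1, hSE, hD⟩ | ⟨η, μ, hη, hη4, hμ, hμ1, hSE, hD⟩ |
    ⟨T, N, hN, hwN, hD⟩
  · exact Pool.Agent.Helper72.SA.coreG2 v w f d₁ d₂ (fun e a b => (hf e a b).1)
      (fun e a b => (hf e a b).2) h₁ h₂ (by linarith) (by linarith)
      (one_le_mul_of_one_le_of_one_le hd₁ hd₂) c δ a κ hδ hδ1 ha hκ hκ1 hn D hSE hD L hL.one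
      hL.nonneg hval
  · rcases Pool.Agent.Helper72.SA.coreQ v w f d₁ d₂ (fun e a b => (hf e a b).1)
      (fun e a b => (hf e a b).2) h₁ h₂ (by linarith) (by linarith)
      (one_le_mul_of_one_le_of_one_le hd₁ hd₂) c δ η μ hδ hδ1 hη hη4 hμ hμ1 (by omega) D hD L
      hL.one hL.nonneg hval with h | ⟨S, S', -, h2, h3⟩
    · exact h
    · exact absurd (hSE S S' h2) (not_le.2 h3)
  · refine Pool.Agent.Helper72.SA.coreP v w f d₁ d₂ (fun e a b => (hf e a b).1)
      (fun e a b => (hf e a b).2) h₁ h₂ (by linarith) (by linarith)
      (one_le_mul_of_one_le_of_one_le hd₁ hd₂) c δ N hδ hδ1 T D hN ?_ hD L hL.one hL.nonneg hval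
    simp only [walk_eq] at hwN
    exact hwN

end Pool.Agent.Results.MP_62e2f2_lc.SheraliAdamsExpandingGames
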