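import Pool.Agent.Helper72.SA.MainD

/-!
# Sherali-Adams linear programs for d-to-1 games

The linear program of level `D` of the Sherali-Adams hierarchy (no semidefinite constraint, any
alphabets) of a projection game all of whose fibres have at most `d` elements, of value at least
`c`, is rounded to a labeling of value `Ω(c ^ 5 δ)`, if `D` is at least
`16 n ^ (12 x log (2 / x))` with `x = log (2048 d / c ^ 4) / log (1 / δ)`, where `n` is the number
of the vertices on the side of the large alphabet. So for fixed `d` and completeness `c` (perfect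
completeness, `c = 1`, is the case of the conjecture) the linear programs of level `n ^ o(1)`, as
`δ → 0`, refute the satisfiability of all `d`-to-1 games of value less than `δ`.

Idea of the proof. A soft part of the graph of the pairs of edges with the same left vertex is given
by a variational problem. For two right neighbours of a left vertex of a good edge the labels agree
with probability bounded below, up to `1 / M`, since Sherali-Adams gives a positive semidefinite
correlation matrix of any `M` right vertices relative to the labels of the left vertex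
(`Pool/Agent/Helper72/SA/PairSA.lean`). If the variances in the part are not small then the average
of the squared correlations of pairs of vertices is bounded below by the perturbed log-convexity of
the autocorrelation along the reversible chain of the part, applied to independent samples of the
chain (`Pool/Agent/Helper72/SA/AcR.lean`), and conditioning decreases the sum of the variances.
-/

namespace Pool.Agent.Results.MP_62e2f2_lc.SheraliAdamsProjection

open Finset

/-- `f` depends only on the labels of the right vertices in `S` and of the left vertices in `T`. -/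
def DependsOn {V W A B : Type} (S : Finset W) (T : Finset V) (f : (W → A) × (V → B) → ℝ) : Prop :=
  ∀ z z' : (W → A) × (V → B), (∀ w ∈ S, z.1 w = z'.1 w) → (∀ v ∈ T, z.2 v = z'.2 v) → f z = f z'

/-- `L` is a solution of the Sherali-Adams linear program of level `D`: a normalised linear
functional on the functions of a labeling which is nonnegative on all nonnegative functions of at
most `D` labels. Only the values of `L` on functions of at most `D` labels matter: they are the
expectations for a family of probability distributions on the labelings of the sets of at most `D`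
vertices which are consistent on intersections. -/
structure IsSheraliAdams {V W A B : Type} (D : ℕ) (L : ((W → A) × (V → B) → ℝ) →ₗ[ℝ] ℝ) :
    Prop where
  one : L (fun _ => 1) = 1
  nonneg : ∀ (S : Finset W) (T : Finset V), S.card + T.card ≤ D →
    ∀ f : (W → A) × (V → B) → ℝ, DependsOn S T f → (∀ z, 0 ≤ f z) → 0 ≤ L f

/-- Consider a projection game with left vertices `V` (labels `B`), right vertices `W` (labels `A`),
edges `(v e, w e)` and projections `π e : A → B` all of whose fibres have at most `d` elements. Let
`0 < c ≤ 1`, `1 / |W| ≤ δ ≤ c ^ 4 / (2048 d)` and `x = log (2048 d / c ^ 4) / log (1 / δ)`. If the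
Sherali-Adams linear program of level `D ≥ 16 |W| ^ (12 x log (2 / x))` has a solution of value at
least `c`, then some labeling satisfies at least a fraction `c ^ 5 δ / 2 ^ 21` of the edges. -/
theorem result (V W A B E : Type) [Fintype V] [Fintype W] [Fintype A] [Fintype B] [DecidableEq B]
    [Fintype E] (v : E → V) (w : E → W) (π : E → A → B) (d : ℕ)
    (hfib : ∀ e b, (univ.filter fun a => π e a = b).card ≤ d) (c δ x : ℝ) (D : ℕ)
    (L : ((W → A) × (V → B) → ℝ) →ₗ[ℝ] ℝ) (hd : 0 < d) (hc : 0 < c) (hc1 : c ≤ 1) (hδ : 0 < δ)
    (hδ1 : δ ≤ c ^ 4 / (2048 * d)) (hδn : 1 / (Fintype.card W : ℝ) ≤ δ) (hW : 0 < Fintype.card W)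
    (hx : x = Real.log (2048 * d / c ^ 4) / Real.log (1 / δ))
    (hD : 16 * (Fintype.card W : ℝ) ^ (12 * (x * Real.log (2 / x))) ≤ D)
    (hL : IsSheraliAdams D L)
    (hval : c * (Fintype.card E : ℝ) ≤
      ∑ e, L (fun z => if π e (z.1 (w e)) = z.2 (v e) then 1 else 0)) :
    ∃ (f : W → A) (g : V → B), c ^ 5 * δ / 2 ^ 21 * (Fintype.card E : ℝ) ≤
      ((univ.filter fun e => π e (f (w e)) = g (v e)).card : ℝ) := by
  classical
  have hn0 : (0 : ℝ) < Fintype.card W := by exact_mod_cast hW
  have hn1 : (1 : ℝ) ≤ Fintype.card W := by exact_mod_cast hW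
  have hd0 : (0 : ℝ) < d := by exact_mod_cast hd
  have hd1 : (1 : ℝ) ≤ d := by exact_mod_cast hd
  have hc4 : c ^ 4 ≤ 1 := pow_le_one₀ hc.le hc1
  have hR : (2048 : ℝ) ≤ 2048 * d / c ^ 4 := by
    rw [le_div_iff₀ (by positivity)]
    nlinarith [pow_pos hc 4]
  have hΛ : 0 < Real.log (2048 * d / c ^ 4) := Real.log_pos (by linarith)
  obtain ⟨l, hl⟩ : ∃ l, l = Real.log (1 / δ) := ⟨_, rfl⟩
  have hll : Real.log (2048 * d / c ^ 4) ≤ l := by
    rw [hl]
    refine Real.log_le_log (by linarith) ?_
    rw [div_le_div_iff₀ (by positivity) hδ]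
    rw [le_div_iff₀ (by positivity)] at hδ1
    linarith
  have hl0 : 0 < l := by linarith
  have hln : l ≤ Real.log (Fintype.card W) := by
    rw [hl]
    refine Real.log_le_log (by positivity) ?_
    rw [div_le_iff₀ hδ]
    rw [div_le_iff₀ hn0] at hδn
    linarith
  have hel : Real.exp (-l) = δ := by
    rw [hl, one_div, Real.log_inv, neg_neg, Real.exp_log hδ]
  rw [← hl] at hx
  have hx0 : 0 < x := by rw [hx]; positivity
  have hx1 : x ≤ 1 := by rw [hx, div_le_one hl0]; exact hll
  have hlogx : 0 ≤ Real.log (2 / x) := Real.log_nonneg (by rw [le_div_iff₀ hx0]; linarith)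
  obtain ⟨X, hX⟩ : ∃ X, X = (Fintype.card W : ℝ) ^ (12 * (x * Real.log (2 / x))) := ⟨_, rfl⟩
  rw [← hX] at hD
  have hX1 : 1 ≤ X := by
    rw [hX]
    exact Real.one_le_rpow hn1 (by positivity)
  obtain ⟨k, hk⟩ : ∃ k : ℕ, k = ⌈X⌉₊ := ⟨_, rfl⟩
  obtain ⟨M, hM⟩ : ∃ M : ℕ, M = ⌈4 * X⌉₊ := ⟨_, rfl⟩
  have hk1 : X ≤ k := by rw [hk]; exact Nat.le_ceil _
  have hk2 : (k : ℝ) < X + 1 := by rw [hk]; exact Nat.ceil_lt_add_one (by positivity)
  have hM1 : 4 * X ≤ M := by rw [hM]; exact Nat.le_ceil _
  have hM2 : (M : ℝ) < 4 * X + 1 := by rw [hM]; exact Nat.ceil_lt_add_one (by positivity)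
  have hkD : k + (M + M) ≤ D := by
    have h : ((k + (M + M) : ℕ) : ℝ) ≤ D := by
      push_cast
      linarith
    exact_mod_cast h
  have hL' : Pool.Agent.Helper72.SA.SA2 (k + (M + M)) L :=
    ⟨hL.one, fun S T hST => hL.nonneg S T (hST.trans hkD)⟩
  rw [hX] at hk1 hM1
  obtain ⟨f, g, hfg⟩ := Pool.Agent.Helper72.SA.coreD v w π d hfib c l x hc hc1 hx hl0 hll hln k M
    hk1 hM1 L hL' hval
  refine ⟨f, g, ?_⟩
  rw [hel] at hfg
  exact hfg

end Pool.Agent.Results.MP_62e2f2_lc.SheraliAdamsProjection
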